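import Pool.Agent.Helper55.K4.Mix

/-!
# K4: exact values of `Phi` when all rows are uniform and when all rows are unit rows
-/

set_option autoImplicit false

open Finset

namespace K4

theorem E1_unif {v : Fin 4 → ℝ} (hv : ∀ j, v j = 1 / 4) (m : ℝ) (F : ℝ → ℝ) :
    E1 m v F = (1 - 4 * m) * F 0 + 4 * m * F (1 / 4) := by
  unfold E1
  rw [Fin.sum_univ_four, hv 0, hv 1, hv 2, hv 3]
  ring

theorem E1_unit {v : Fin 4 → ℝ} (h0 : ∀ j, 0 ≤ v j) (h1 : ∑ j, v j = 1) (hv : ∃ j, v j = 1)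
    (m : ℝ) (F : ℝ → ℝ) : E1 m v F = (1 - m) * F 0 + m * F 1 := by
  obtain ⟨j, hj⟩ := hv
  have hz : ∀ i, i ≠ j → v i = 0 := by
    intro i hij
    have h2 : ∑ k ∈ univ.erase j, v k = 0 := by
      have h3 := Finset.add_sum_erase univ v (mem_univ j)
      linarith
    have h4 := (Finset.sum_eq_zero_iff_of_nonneg fun k _ => h0 k).1 h2
    exact h4 i (by simp [hij])
  have hs : ∑ k, F (v k) = F 1 + 3 * F 0 := by
    rw [← Finset.add_sum_erase univ (fun k => F (v k)) (mem_univ j), hj]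
    have h5 : ∑ k ∈ univ.erase j, F (v k) = ∑ _k ∈ univ.erase j, F 0 := by
      refine Finset.sum_congr rfl fun k hk => ?_
      rw [hz k (Finset.ne_of_mem_erase hk)]
    rw [h5, Finset.sum_const, Finset.card_erase_of_mem (mem_univ j)]
    simp
  unfold E1
  rw [hs]
  ring

theorem Phi_unif (v : Fin 4 → Fin 4 → ℝ) (hv : ∀ i j, v i j = 1 / 4) (m : ℝ) :
    Phi v m = (4 * m) ^ 4 := by
  unfold Phi
  simp only [E1_unif (hv 0), E1_unif (hv 1), E1_unif (hv 2), E1_unif (hv 3)]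
  norm_num
  ring

theorem Phi_unit (v : Fin 4 → Fin 4 → ℝ) (h0 : ∀ i j, 0 ≤ v i j) (h1 : ∀ i, ∑ j, v i j = 1)
    (hv : ∀ i, ∃ j, v i j = 1) (m : ℝ) : Phi v m = 1 - (1 - m) ^ 4 := by
  unfold Phi
  simp only [E1_unit (h0 0) (h1 0) (hv 0), E1_unit (h0 1) (h1 1) (hv 1),
    E1_unit (h0 2) (h1 2) (hv 2), E1_unit (h0 3) (h1 3) (hv 3)]
  norm_num
  ring

end K4
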